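import Mathlib
import Pool.Agent.Helper767_RI.Main

set_option autoImplicit false

/-!
# In every class `gcd (m - 1, p - 1) = d` at most about one half of the indices are irregular

Let `p` be an odd prime and call an even number `m`, `2 ≤ m ≤ p - 3`, an irregular index of `p` if `p` divides the
numerator of `B_m`; the prime `p` is regular if it has no irregular index. The indices are divided into the classes
`gcd (m - 1, p - 1) = d`, where `d` runs through the odd divisors of `p - 1`; the class of `d` has `N = φ((p - 1) / d)`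
elements (`N - 1` for `d = 1`). For every `p` and `d` the number `k` of irregular indices in the class satisfies
`p ^ (2 k) ≤ (p (1 + log p) ^ 2) ^ N`, that is
`k ≤ (N / 2) (1 + 2 log (1 + log p) / log p)`,
and `N ^ N p ^ (2 k) ≤ ((p - 1) ^ 2 / 4) ^ N`. Consequently `k ≤ N / 2` if `(1 + log p) ^ N < p` (and
`d < (p - 1) / 2`) or `4 N ≥ p`. Moreover, for every prime `p ≥ 5` and every odd divisor `d` of `p - 1` there is a
regular index in the class of `d`: an even `m`, `2 ≤ m ≤ p - 3`, with `gcd (m - 1, p - 1) = d` such that `p` does not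
divide the numerator of `B_m`.

Outline. Let `n = (p - 1) / d`, let `χ` be a character of order `n` modulo `p` with values in `ℤ[ζ_n]` and let
`S = ∑_{a < p/2} χ(a)`. The character is odd, so `S ≠ 0` (`L(1, χ) ≠ 0`). Every index `m` of the class gives a
homomorphism `φ_m : ℤ[ζ_n] → 𝔽_p` with `φ_m(χ(a)) = a ^ (m - 1)`, and `φ_m(S) = 0` if `m` is irregular. The kernels
are distinct prime ideals of norm `p`, so `p ^ k` divides the norm of `S`. The conjugates of `S` are half sums of the
characters of order `n`; they are estimated by the inequality of Pólya and Vinogradov, or on the average by the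
orthogonality relations.
-/

open Finset

namespace Pool.Agent.Results.MP_a3a416_nt.GcdClasses

/-- the even numbers `m`, `2 ≤ m ≤ p - 3`, with `gcd (m - 1, p - 1) = d` -/
def indexClass (p d : ℕ) : Finset ℕ :=
  (range (p - 2)).filter fun m => 2 ≤ m ∧ Even m ∧ Nat.gcd (m - 1) (p - 1) = d

/-- the `m` of the class such that `p` divides the numerator of the Bernoulli number `B_m` -/
noncomputable def irregularIndices (p d : ℕ) : Finset ℕ :=
  (indexClass p d).filter fun m => (p : ℤ) ∣ (bernoulli m).num

theorem irr_eq (p d : ℕ) : irregularIndices p d = Pool.Agent.Helper767_RI.irr p d := by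
  ext m
  simp only [irregularIndices, indexClass, Pool.Agent.Helper767_RI.irr, mem_filter]
  tauto

theorem card_class (p d : ℕ) (hp : p.Prime) (hp3 : 3 ≤ p) (hd : d ∣ p - 1) (hodd : Odd d) :
    (indexClass p d).card = ((p - 1) / d).totient - if d = 1 then 1 else 0 := by
  have hp2 : p % 2 = 1 := by
    rcases hp.eq_two_or_odd with h | h
    · omega
    · exact h
  have ho : d % 2 = 1 := Nat.odd_iff.1 hodd
  rw [Nat.totient_div_of_dvd hd]
  -- all exponents
  have h1 : (range (p - 1)).filter (fun k => (p - 1).gcd k = d) =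
      (indexClass p d).image (fun m => m - 1) ∪ if d = 1 then {p - 2} else ∅ := by
    ext k
    simp only [mem_filter, mem_range, mem_union, mem_image, indexClass]
    constructor
    · rintro ⟨h1, h2⟩
      have hk2 : k % 2 = 1 := by
        by_contra h
        have h3 : 2 ∣ Nat.gcd (p - 1) k := Nat.dvd_gcd (by omega) (by omega)
        rw [h2] at h3
        omega
      by_cases h3 : k = p - 2
      · right
        have h4 : d = 1 := by
          rw [← h2, h3]
          have h5 : p - 1 = (p - 2) + 1 := by omega
          rw [h5, Nat.gcd_comm, Nat.gcd_self_add_right, Nat.gcd_one_right]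
        rw [if_pos h4, mem_singleton]
        exact h3
      · left
        refine ⟨k + 1, ⟨by omega, by omega, Nat.even_iff.2 (by omega), ?_⟩, by omega⟩
        rw [Nat.add_sub_cancel, Nat.gcd_comm]
        exact h2
    · rintro (⟨m, ⟨h1, h2, h3, h4⟩, rfl⟩ | h)
      · exact ⟨by omega, by rw [Nat.gcd_comm]; exact h4⟩
      · by_cases h4 : d = 1
        · rw [if_pos h4, mem_singleton] at h
          subst h
          refine ⟨by omega, ?_⟩
          have h5 : p - 1 = (p - 2) + 1 := by omega
          rw [h4, h5, Nat.gcd_comm, Nat.gcd_self_add_right, Nat.gcd_one_right]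
        · rw [if_neg h4] at h
          exact absurd h (notMem_empty _)
  have h2 : ((indexClass p d).image (fun m => m - 1)).card = (indexClass p d).card := by
    refine card_image_of_injOn ?_
    intro m hm m' hm' h
    have h3 := (mem_filter.1 hm).2.1
    have h4 := (mem_filter.1 hm').2.1
    simp only at h
    omega
  have h3 : Disjoint ((indexClass p d).image (fun m => m - 1)) (if d = 1 then {p - 2} else ∅) := by
    split_ifs with h
    · rw [disjoint_singleton_right, mem_image]
      rintro ⟨m, hm, hm'⟩
      obtain ⟨h4, h5, -⟩ := mem_filter.1 hm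
      rw [mem_range] at h4
      omega
    · exact disjoint_empty_right _
  rw [h1, card_union_of_disjoint h3, h2]
  split_ifs with h
  · simp
  · simp

/-- **Irregular indices in the class `gcd (m - 1, p - 1) = d`.** -/
theorem result (p : ℕ) (hp : p.Prime) (hp3 : 3 ≤ p) (d : ℕ) (hd : d ∣ p - 1) (hodd : Odd d) :
    (indexClass p d).card = ((p - 1) / d).totient - (if d = 1 then 1 else 0) ∧
    (p : ℝ) ^ (2 * (irregularIndices p d).card) ≤ (p * (1 + Real.log p) ^ 2) ^ ((p - 1) / d).totient ∧
    (((p - 1) / d).totient : ℝ) ^ ((p - 1) / d).totient * (p : ℝ) ^ (2 * (irregularIndices p d).card) ≤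
      (((p : ℝ) - 1) ^ 2 / 4) ^ ((p - 1) / d).totient ∧
    ((2 * d < p - 1 ∧ (1 + Real.log p) ^ ((p - 1) / d).totient < p) ∨ p ≤ 4 * ((p - 1) / d).totient →
      2 * (irregularIndices p d).card ≤ ((p - 1) / d).totient) ∧
    (5 ≤ p → ∃ m, 2 ≤ m ∧ m ≤ p - 3 ∧ Even m ∧ Nat.gcd (m - 1) (p - 1) = d ∧ ¬ (p : ℤ) ∣ (bernoulli m).num) := by
  have : Fact p.Prime := ⟨hp⟩
  have hp2 : p % 2 = 1 := by
    rcases hp.eq_two_or_odd with h | h
    · omega
    · exact h
  have hnd : (p - 1) / d * d = p - 1 := Nat.div_mul_cancel hd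
  obtain ⟨h1, h2⟩ := Pool.Agent.Helper767_RI.bounds p ((p - 1) / d) d hp2 hnd (Nat.odd_iff.1 hodd)
  rw [← irr_eq] at h1 h2
  set N := ((p - 1) / d).totient with hN
  set k := (irregularIndices p d).card with hk
  have hp0 : (0 : ℝ) < p := by exact_mod_cast hp.pos
  have hp1 : (1 : ℝ) < p := by exact_mod_cast hp.one_lt
  have hlog : 0 < Real.log p := Real.log_pos hp1
  have e1 : ((((p : ℝ) - 1) / 2) ^ 2) = ((p : ℝ) - 1) ^ 2 / 4 := by ring
  rw [e1] at h2
  refine ⟨card_class p d hp hp3 hd hodd, h1, h2, ?_, ?_⟩
  swap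
  · intro hp5
    by_cases hd1 : d = 1
    · refine ⟨2, le_rfl, by omega, even_two, ?_, ?_⟩
      · rw [hd1]; simp
      · rw [bernoulli_two]
        intro h
        have h6 : ((6 : ℚ)⁻¹).num = 1 := by norm_num
        rw [h6] at h
        have h7 := Int.le_of_dvd one_pos h
        omega
    · by_contra hcon
      push Not at hcon
      have hcard := card_class p d hp hp3 hd hodd
      rw [if_neg hd1, Nat.sub_zero] at hcard
      have heq : irregularIndices p d = indexClass p d := by
        rw [irregularIndices, filter_eq_self]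
        intro m hm
        obtain ⟨h3, h4, h5, h6⟩ := mem_filter.1 hm
        rw [mem_range] at h3
        exact hcon m h4 (by omega) h5 h6
      have hkN : k = N := by rw [hk, heq, hcard]
      have hN0 : 0 < N := by
        rw [hN]
        exact Nat.totient_pos.2 (Nat.div_pos (Nat.le_of_dvd (by omega) hd) (Nat.pos_of_dvd_of_pos hd (by omega)))
      rw [hkN, pow_mul, ← mul_pow] at h2
      have h3 : (N : ℝ) * (p : ℝ) ^ 2 ≤ ((p : ℝ) - 1) ^ 2 / 4 :=
        le_of_pow_le_pow_left₀ hN0.ne' (by positivity) h2
      have h4 : (1 : ℝ) ≤ N := by exact_mod_cast hN0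
      nlinarith [sq_nonneg (p : ℝ), mul_le_mul_of_nonneg_right h4 (sq_nonneg (p : ℝ))]
  rintro (⟨h3, h4⟩ | h3)
  · have hn3 : 2 < (p - 1) / d := by
      by_contra h
      have h5 : (p - 1) / d * d ≤ 2 * d := Nat.mul_le_mul_right d (by omega)
      omega
    have hev : Even N := Nat.totient_even hn3
    have h5 : (p : ℝ) ^ (2 * k) < (p : ℝ) ^ (N + 2) := by
      refine lt_of_le_of_lt h1 ?_
      rw [mul_pow, pow_add]
      refine mul_lt_mul_of_pos_left ?_ (by positivity)
      rw [← pow_mul, mul_comm 2 N, pow_mul]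
      exact pow_lt_pow_left₀ h4 (by positivity) two_ne_zero
    have h6 : 2 * k < N + 2 := (pow_lt_pow_iff_right₀ hp1).1 h5
    obtain ⟨c, hc⟩ := hev
    omega
  · have hN0 : 0 < N := by omega
    have h5 : (N : ℝ) ^ N * (p : ℝ) ^ (2 * k) < (N : ℝ) ^ N * (p : ℝ) ^ N := by
      refine lt_of_le_of_lt h2 ?_
      rw [← mul_pow]
      refine pow_lt_pow_left₀ ?_ (by positivity) hN0.ne'
      have h6 : (p : ℝ) ≤ 4 * N := by exact_mod_cast h3
      nlinarith
    have h6 : (p : ℝ) ^ (2 * k) < (p : ℝ) ^ N := lt_of_mul_lt_mul_left h5 (by positivity)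
    exact ((pow_lt_pow_iff_right₀ hp1).1 h6).le

end Pool.Agent.Results.MP_a3a416_nt.GcdClasses
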